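import Pool.Agent.K4W.StmtsV

/-!
Squad K4W, row DYA: dyadic summation of `kn`.
-/

set_option autoImplicit false

namespace Pool.Agent.K4W.H80

open Pool.Agent.VM (Nr)
open Pool.Agent.K4W

theorem dya : DyaStmt := by
  classical
  intro N J θ B A hN hJ hB
  have hN0 : (0 : ℝ) < N := by exact_mod_cast hN
  set η : ℕ → ℝ := fun j => 2 ^ j / (8 * (N : ℝ)) with hη
  have hη0 : ∀ j, 0 < η j := fun j => by simp only [hη]; positivity
  have hηJ : 1 / 2 ≤ η J := by
    simp only [hη]
    rw [div_le_div_iff₀ (by norm_num) (by positivity)]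
    have : (4 * (N : ℝ)) ≤ 2 ^ J := by exact_mod_cast hJ
    linarith
  have hηs : ∀ j, η (j + 1) = 2 * η j := fun j => by simp only [hη]; rw [pow_succ]; ring
  have hη00 : η 0 = 1 / (8 * (N : ℝ)) := by simp [hη]
  have hηge : ∀ j, 1 / (8 * (N : ℝ)) ≤ η j := by
    intro j
    simp only [hη]
    gcongr
    exact one_le_pow₀ (by norm_num)
  set d : ℤ → ℝ := fun n => |θ * (n : ℝ) - round (θ * (n : ℝ))| with hd
  have hd1 : ∀ n, d n ≤ 1 / 2 := fun n => abs_sub_round _
  have hkn : ∀ n : ℤ, kn N (θ * (n : ℝ)) ≤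
      ∑ j ∈ Finset.range (J + 1), if d n ≤ η j then 2 / η j else 0 := by
    intro n
    have hex : ∃ j, d n ≤ η j := ⟨J, (hd1 n).trans hηJ⟩
    have hj := Nat.find_spec hex
    have hjJ : Nat.find hex ≤ J := Nat.find_min' hex ((hd1 n).trans hηJ)
    have hle : kn N (θ * (n : ℝ)) ≤ 2 / η (Nat.find hex) := by
      have hmax : η (Nat.find hex) / 2 ≤ max (1 / (8 * (N : ℝ))) (d n) := by
        rcases Nat.eq_zero_or_pos (Nat.find hex) with h0 | hpos
        · rw [h0, hη00]
          refine le_max_of_le_left ?_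
          have : 0 < 1 / (8 * (N : ℝ)) := by positivity
          linarith
        · obtain ⟨k, hk⟩ := Nat.exists_eq_succ_of_ne_zero hpos.ne'
          have hlt : ¬ d n ≤ η k := Nat.find_min hex (by omega)
          rw [hk, Nat.succ_eq_add_one, hηs]
          refine le_max_of_le_right ?_
          have := not_le.1 hlt
          linarith
      show (max (1 / (8 * (N : ℝ))) (d n))⁻¹ ≤ _
      have h2 := inv_anti₀ (by have := hη0 (Nat.find hex); positivity) hmax
      refine h2.trans (le_of_eq ?_)
      rw [inv_div]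
    refine hle.trans ?_
    have h3 := Finset.single_le_sum (f := fun j => if d n ≤ η j then 2 / η j else 0)
      (s := Finset.range (J + 1)) (fun j _ => by
        split_ifs
        · have := hη0 j
          positivity
        · exact le_rfl) (Finset.mem_range.2 (Nat.lt_succ_of_le hjJ))
    simp only [hj, if_true] at h3
    exact h3
  calc ∑ n ∈ A, kn N (θ * (n : ℝ))
      ≤ ∑ n ∈ A, ∑ j ∈ Finset.range (J + 1), (if d n ≤ η j then 2 / η j else 0) :=
        Finset.sum_le_sum fun n _ => hkn n
    _ = ∑ j ∈ Finset.range (J + 1), ∑ n ∈ A, (if d n ≤ η j then 2 / η j else 0) :=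
        Finset.sum_comm
    _ ≤ ∑ j ∈ Finset.range (J + 1), 2 * B := by
        refine Finset.sum_le_sum fun j _ => ?_
        rw [← Finset.sum_filter, Finset.sum_const, nsmul_eq_mul]
        have h1 := hB (η j) (hηge j) (A.filter fun n => d n ≤ η j) (Finset.filter_subset _ _)
          (fun n hn => ⟨round (θ * (n : ℝ)), (Finset.mem_filter.1 hn).2⟩)
        have h2 : ((A.filter fun n => d n ≤ η j).card : ℝ) * (2 / η j) ≤
            B * η j * (2 / η j) :=
          mul_le_mul_of_nonneg_right h1 (by have := hη0 j; positivity)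
        refine h2.trans (le_of_eq ?_)
        have := (hη0 j).ne'
        field_simp
    _ = 2 * B * ((J : ℝ) + 1) := by
        rw [Finset.sum_const, Finset.card_range, nsmul_eq_mul]
        push_cast
        ring

end Pool.Agent.K4W.H80
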